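import Mathlib
import Pool.Agent.H75.MX.Final

set_option autoImplicit false

/-!
The problem `does the semigroup generated by a finite list of 2x2 integer matrices contain a matrix
with top left entry 0` is hard for all recursively enumerable sets, with lists of a fixed length.
-/

namespace Pool.Agent.Results.MP_d109f1_lc.FixedNumber

/-- The 2x2 integer matrix with rows `(a, b)` and `(c, d)`. -/
def mat (x : ℤ × ℤ × ℤ × ℤ) : Matrix (Fin 2) (Fin 2) ℤ := !![x.1, x.2.1; x.2.2.1, x.2.2.2]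

/-- Some product `A₁ A₂ ⋯ Aₘ`, `m ≥ 1`, of matrices from the list has top left entry `0`. -/
def HasZero (L : List (ℤ × ℤ × ℤ × ℤ)) : Prop :=
  ∃ w : List (ℤ × ℤ × ℤ × ℤ), w ≠ [] ∧ (∀ x ∈ w, x ∈ L) ∧ (w.map mat).prod 0 0 = 0

private theorem hasZero_iff (L : List (ℤ × ℤ × ℤ × ℤ)) :
    HasZero L ↔ ∃ M ∈ Subsemigroup.closure
      {N : Matrix (Fin 2) (Fin 2) ℤ | ∃ x ∈ L, N = !![x.1, x.2.1; x.2.2.1, x.2.2.2]},
        M 0 0 = 0 := by
  set G : Set (Matrix (Fin 2) (Fin 2) ℤ) :=
    {N | ∃ x ∈ L, N = !![x.1, x.2.1; x.2.2.1, x.2.2.2]} with hG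
  constructor
  · rintro ⟨w, hw, hL, h0⟩
    refine ⟨_, ?_, h0⟩
    clear h0
    induction w with
    | nil => exact absurd rfl hw
    | cons x w ih =>
      have hx : mat x ∈ Subsemigroup.closure G :=
        Subsemigroup.subset_closure ⟨x, hL x (by simp), rfl⟩
      by_cases hn : w = []
      · subst hn
        simpa using hx
      · rw [List.map_cons, List.prod_cons]
        exact mul_mem hx (ih hn fun y hy => hL y (by simp [hy]))
  · rintro ⟨M, hM, h0⟩
    suffices h : ∃ w : List (ℤ × ℤ × ℤ × ℤ), w ≠ [] ∧ (∀ x ∈ w, x ∈ L) ∧ (w.map mat).prod = M by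
      obtain ⟨w, h1, h2, h3⟩ := h
      exact ⟨w, h1, h2, by rw [h3]; exact h0⟩
    clear h0
    induction hM using Subsemigroup.closure_induction with
    | mem N hN =>
      obtain ⟨x, hx, rfl⟩ := hN
      exact ⟨[x], by simp, by simpa using hx, by simp [mat]⟩
    | mul A B _ _ hA hB =>
      obtain ⟨u, hu1, hu2, rfl⟩ := hA
      obtain ⟨v, hv1, hv2, rfl⟩ := hB
      refine ⟨u ++ v, by simp [hu1], ?_, by simp⟩
      intro x hx
      rcases List.mem_append.1 hx with h | h
      · exact hu2 x h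
      · exact hv2 x h

open Pool.Agent.H75.MX in
private theorem hard {A : ℕ → Prop} (hA : REPred A) :
    ∃ (k : ℕ) (f : ℕ → List (ℤ × ℤ × ℤ × ℤ)), Computable f ∧ (∀ n, (f n).length = k) ∧
      ∀ n, A n ↔ HasZero (f n) := by
  obtain ⟨k, P, hP⟩ := Pool.Agent.H96.DPRM.dprm hA
  obtain ⟨N, Γ, hN, hOK, hsat⟩ := pcon k P
  obtain ⟨K, rfl⟩ : ∃ K, N = K + 1 := ⟨N - 1, by omega⟩
  obtain ⟨Q, fQ, T, q, hT⟩ := vd_all K Γ hOK
  have : Finite (NTm K Q) := finite_NTm K Q
  obtain ⟨p, L0, hL⟩ := matrices (nsys T q) (final_leaf T q)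
  have key : ∀ n : ℕ, (∃ x : Fin k → ℕ,
      MvPolynomial.eval (Fin.cons (n : ℤ) (fun i => (x i : ℤ))) P = 0) ↔
      ∃ M ∈ Subsemigroup.closure {N : Matrix (Fin 2) (Fin 2) ℤ |
          ∃ x ∈ L0.map (comb ((p : ℤ) ^ (4 * code K (Pi.single 0 n)))),
            N = !![x.1, x.2.1; x.2.2.1, x.2.2.2]}, M 0 0 = 0 := by
    intro n
    rw [hL _ (code_pos K _)]
    have hcons : ∀ x : Fin k → ℕ, (Fin.cons (n : ℤ) (fun i => (x i : ℤ)) : Fin (k + 1) → ℤ) =
        fun i => (((Fin.cons n x : Fin (k + 1) → ℕ) i : ℕ) : ℤ) := by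
      intro x
      funext i
      refine Fin.cases ?_ (fun i => ?_) i <;> simp
    constructor
    · rintro ⟨x, hx⟩
      rw [hcons, hsat] at hx
      obtain ⟨v, hv, hΓ⟩ := hx
      have hloc : ∀ m < K + 1, v m = ext0 (K := K) (fun i => v i.val) m := by
        intro m hm
        simp [ext0, hm]
      refine ⟨_, ncomp T q n ((hT n (fun i => v i.val)).2 ⟨?_, ?_⟩)⟩
      · have := hv 0
        simpa using this
      · intro c hc
        exact (sat_local (hOK c hc) hloc).1 (hΓ c hc)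
    · rintro ⟨m, hm⟩
      obtain ⟨x, -, hx⟩ := nsound T q n hm
      obtain ⟨h0, hΓ⟩ := (hT n x).1 hx
      refine ⟨fun i => ext0 x (i.val + 1), ?_⟩
      rw [hcons, hsat]
      refine ⟨ext0 x, fun i => ?_, hΓ⟩
      refine Fin.cases ?_ (fun i => ?_) i
      · have h0' : x 0 = n := h0
        simp only [Fin.val_zero, Fin.cons_zero]
        unfold ext0
        rw [dif_pos (by omega)]
        exact h0'
      · simp
  refine ⟨L0.length, fun n => L0.map (comb ((p : ℤ) ^ (4 * code K (Pi.single 0 n)))),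
    comp_list p K L0, fun n => by simp, fun n => ?_⟩
  rw [hP n, key n, hasZero_iff]

/-- For every recursively enumerable set `A` of natural numbers there are a number `k` and a
computable function `f`, whose values are lists of exactly `k` integer 2x2 matrices, such that `n` is in
`A` if and only if some product of at least one matrix of `f n` has top left entry `0`. So the zero
top left entry problem is undecidable, already for a fixed number of matrices. -/
theorem result :
    (∀ A : ℕ → Prop, REPred A →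
      ∃ (k : ℕ) (f : ℕ → List (ℤ × ℤ × ℤ × ℤ)), Computable f ∧ (∀ n, (f n).length = k) ∧
        ∀ n, A n ↔ HasZero (f n)) ∧
    (∃ k : ℕ, ¬ ComputablePred (fun v : List.Vector (ℤ × ℤ × ℤ × ℤ) k => HasZero v.toList)) ∧
    ¬ ComputablePred HasZero := by
  refine ⟨fun A hA => hard hA, ?_, ?_⟩
  · obtain ⟨A, hA, hn⟩ := Pool.Agent.H96.DPRM.exists_re_not_computable
    obtain ⟨k, f, hf, hk, hAf⟩ := hard hA
    refine ⟨k, fun hc => hn ?_⟩
    obtain ⟨g, hg, hgf⟩ := ComputablePred.computable_iff.1 hc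
    have hF : @Computable ℕ (List.Vector (ℤ × ℤ × ℤ × ℤ) k) _ _ (fun n => ⟨f n, hk n⟩) := hf
    refine ComputablePred.computable_iff.2 ⟨fun n => g ⟨f n, hk n⟩, hg.comp hF, ?_⟩
    funext n
    have h3 := congrFun hgf ⟨f n, hk n⟩
    rw [← h3]
    exact propext (hAf n)
  · obtain ⟨A, hA, hn⟩ := Pool.Agent.H96.DPRM.exists_re_not_computable
    obtain ⟨k, f, hf, hk, hAf⟩ := hard hA
    intro hc
    obtain ⟨g, hg, hgf⟩ := ComputablePred.computable_iff.1 hc
    refine hn (ComputablePred.computable_iff.2 ⟨fun n => g (f n), hg.comp hf, ?_⟩)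
    funext n
    have h3 := congrFun hgf (f n)
    rw [← h3]
    exact propext (hAf n)

end Pool.Agent.Results.MP_d109f1_lc.FixedNumber
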